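import Mathlib

/-! Pre-upho colorings whose embeddings preserve the joins of pairs of upper covers. -/

set_option autoImplicit false

namespace Pool.Agent.Lib.MP_4cc90a_co.JoinPreserving

/-- `ChainWord c x z w`: `w` is the word of colors along some saturated chain from `x` to `z`. -/
inductive ChainWord {L A : Type} [PartialOrder L] (c : L → L → A) : L → L → List A → Prop
  | nil (x : L) : ChainWord c x x []
  | cons {x y z : L} {w : List A} : x ⋖ y → ChainWord c y z w → ChainWord c x z (c x y :: w)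

/-- The defining relations: for atoms `s`, `t`, the color words of two saturated chains from the
bottom to the join of `s` and `t`, the first through `s` and the second through `t`. -/
def Rel {L : Type} [Lattice L] [OrderBot L] (c : L → L → {s : L // IsAtom s})
    (u v : FreeMonoid {s : L // IsAtom s}) : Prop :=
  ∃ (s t : {s : L // IsAtom s}) (p q : List {s : L // IsAtom s}),
    ChainWord c s.1 (s.1 ⊔ t.1) p ∧ ChainWord c t.1 (s.1 ⊔ t.1) q ∧
    u = FreeMonoid.ofList (c ⊥ s.1 :: p) ∧ v = FreeMonoid.ofList (c ⊥ t.1 :: q)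

variable {L : Type} [Lattice L] [BoundedOrder L] {c : L → L → {s : L // IsAtom s}} {rk : L → ℕ}
  {x y z y' : L} {p q : List {s : L // IsAtom s}}

theorem ChainWord.le (h : ChainWord c x z p) : x ≤ z := by
  induction h with
  | nil => rfl
  | cons h _ ih => exact h.le.trans ih

theorem ChainWord.append (h : ChainWord c x y p) (h' : ChainWord c y z q) :
    ChainWord c x z (p ++ q) := by
  induction h with
  | nil => exact h'
  | cons h _ ih => exact .cons h (ih h')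

theorem exists_chain [Finite L] (c : L → L → {s : L // IsAtom s}) (h : x ≤ z) :
    ∃ p, ChainWord c x z p := by
  induction x using WellFoundedGT.induction with | _ x ih
  rcases h.eq_or_lt with rfl | h
  · exact ⟨_, .nil _⟩
  · obtain ⟨y, h1, h2⟩ := exists_covBy_le_of_lt h
    obtain ⟨p, hp⟩ := ih y h1.lt h2
    exact ⟨_, .cons h1 hp⟩

/-- What the proof uses. -/
structure Ok (c : L → L → {s : L // IsAtom s}) (rk : L → ℕ) : Prop where
  cov : ∀ x y : L, x ⋖ y → rk y = rk x + 1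
  bot : ∀ s : {s : L // IsAtom s}, c ⊥ s.1 = s
  tr : ∀ {x y y' p}, x ⋖ y → x ⋖ y' → ChainWord c y (y ⊔ y') p →
    ChainWord c (c x y).1 ((c x y).1 ⊔ (c x y').1) p

/-- The class of a word. -/
def W (c : L → L → {s : L // IsAtom s}) (p : List {s : L // IsAtom s}) : PresentedMonoid (Rel c) :=
  PresentedMonoid.mk _ (FreeMonoid.ofList p)

theorem W_nil : W c [] = 1 := rfl

theorem W_append : W c (p ++ q) = W c p * W c q := rfl

theorem W_cons (s) : W c (s :: p) = W c [s] * W c p := rfl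

theorem W_surj (a : PresentedMonoid (Rel c)) : ∃ p, W c p = a := PresentedMonoid.surjective_mk a

theorem len_chain (hr : ∀ x y : L, x ⋖ y → rk y = rk x + 1) (h : ChainWord c x z p) :
    rk z = rk x + p.length := by
  induction h with
  | nil => rfl
  | cons h _ ih => rw [ih, hr _ _ h, List.length_cons]; omega

open Classical in
/-- The class of the color words of the chains from `x` to `z`. -/
noncomputable def I (c : L → L → {s : L // IsAtom s}) (x z : L) : PresentedMonoid (Rel c) :=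
  if h : ∃ p, ChainWord c x z p then W c h.choose else 1

namespace Ok

variable (H : Ok c rk)
include H

theorem len_con {u v} (h : ConGen.Rel (Rel c) u v) : u.toList.length = v.toList.length := by
  induction h with
  | of u v h =>
    obtain ⟨s, t, p, q, hp, hq, rfl, rfl⟩ := h
    have h1 := len_chain H.cov hp
    have h2 := len_chain H.cov hq
    have h3 := H.cov _ _ s.2.bot_covBy
    have h4 := H.cov _ _ t.2.bot_covBy
    simp only [FreeMonoid.toList_ofList, List.length_cons]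
    omega
  | refl => rfl
  | symm _ ih => exact ih.symm
  | trans _ _ ih ih' => exact ih.trans ih'
  | mul _ _ ih ih' => simp only [FreeMonoid.toList_mul, List.length_append, ih, ih']

theorem len_W (h : W c p = W c q) : p.length = q.length :=
  H.len_con (PresentedMonoid.mk_eq_mk_iff.1 h)

/-- The length of an element. -/
def len (a : PresentedMonoid (Rel c)) : ℕ :=
  Quotient.liftOn a (fun u => u.toList.length) fun _ _ h => H.len_con h

theorem len_mul (a b : PresentedMonoid (Rel c)) : H.len (a * b) = H.len a + H.len b := by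
  obtain ⟨p, rfl⟩ := W_surj a
  obtain ⟨q, rfl⟩ := W_surj b
  exact List.length_append

theorem rel (h : x ⋖ y) (h' : x ⋖ y') (hp : ChainWord c y (y ⊔ y') p)
    (hq : ChainWord c y' (y ⊔ y') q) : W c (c x y :: p) = W c (c x y' :: q) :=
  PresentedMonoid.mk_eq_mk_of_rel ⟨_, _, p, q, H.tr h h' hp,
    sup_comm (c x y').1 _ ▸ H.tr h' h (sup_comm y y' ▸ hq), by rw [H.bot], by rw [H.bot]⟩

variable [Finite L]

theorem wd (h : ChainWord c x z p) (h' : ChainWord c x z q) : W c p = W c q := by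
  induction x using WellFoundedGT.induction generalizing p q with | _ x ih
  have h1 := len_chain H.cov h
  have h2 := len_chain H.cov h'
  cases h with
  | nil => rw [List.length_eq_zero_iff.1 (show q.length = 0 by simpa using h2)]
  | @cons _ y _ p a b =>
    cases h' with
    | nil => simp at h1
    | @cons _ y' _ q a' b' =>
      obtain ⟨p₁, e1⟩ := exists_chain c (le_sup_left : y ≤ y ⊔ y')
      obtain ⟨q₁, e2⟩ := exists_chain c (le_sup_right : y' ≤ y ⊔ y')
      obtain ⟨r, e3⟩ := exists_chain c (sup_le b.le b'.le)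
      rw [W_cons, W_cons (c x y'), ih y a.lt b (e1.append e3), ih y' a'.lt b' (e2.append e3),
        W_append, W_append, ← mul_assoc, ← mul_assoc, ← W_cons, ← W_cons, H.rel a a' e1 e2]

theorem I_eq (h : ChainWord c x z p) : I c x z = W c p := by
  have e : ∃ p, ChainWord c x z p := ⟨p, h⟩
  rw [I, dif_pos e, H.wd e.choose_spec h]

theorem I_self (x : L) : I c x x = 1 := H.I_eq (.nil x)

theorem I_cov (h : x ⋖ y) : I c x y = W c [c x y] := H.I_eq (.cons h (.nil y))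

theorem I_mul (h : x ≤ y) (h' : y ≤ z) : I c x y * I c y z = I c x z := by
  obtain ⟨p, hp⟩ := exists_chain c h
  obtain ⟨q, hq⟩ := exists_chain c h'
  rw [H.I_eq hp, H.I_eq hq, H.I_eq (hp.append hq), W_append]

theorem I_tr (h : x ⋖ y) (h' : x ⋖ y') :
    I c (c x y).1 ((c x y).1 ⊔ (c x y').1) = I c y (y ⊔ y') := by
  obtain ⟨p, hp⟩ := exists_chain c (le_sup_left : y ≤ y ⊔ y')
  rw [H.I_eq hp, H.I_eq (H.tr h h' hp)]

theorem len_I (h : x ≤ y) : rk y = rk x + H.len (I c x y) := by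
  obtain ⟨p, hp⟩ := exists_chain c h
  rw [H.I_eq hp]
  exact len_chain H.cov hp

/-- The reduction property for generators, below a given length. -/
def G (n : ℕ) : Prop := ∀ (s t : {s : L // IsAtom s}) (a b : PresentedMonoid (Rel c)),
  H.len a < n → W c [s] * a = W c [t] * b →
    ∃ w, a = I c s.1 (s.1 ⊔ t.1) * w ∧ b = I c t.1 (s.1 ⊔ t.1) * w

theorem step {n : ℕ} (g : H.G n) : ∀ m ≤ n, ∀ (x y z : L) (a b : PresentedMonoid (Rel c)),
    x ≤ y → x ≤ z → I c x y * a = I c x z * b → H.len (I c x y * a) ≤ m →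
    ∃ w, a = I c y (y ⊔ z) * w ∧ b = I c z (y ⊔ z) * w := by
  have triv : ∀ (x z : L) (a b : PresentedMonoid (Rel c)), x ≤ z → I c x x * a = I c x z * b →
      ∃ w, a = I c x (x ⊔ z) * w ∧ b = I c z (x ⊔ z) * w := fun x z a b h e =>
    ⟨b, by rwa [sup_of_le_right h, ← one_mul a, ← H.I_self x], by
      rw [sup_of_le_right h, H.I_self, one_mul]⟩
  intro m
  induction m using Nat.strong_induction_on with | _ m ih
  intro hm x y z a b hy hz e hl
  rcases hy.eq_or_lt with rfl | hy'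
  · exact triv _ _ _ _ hz e
  rcases hz.eq_or_lt with rfl | hz'
  · obtain ⟨w, h1, h2⟩ := triv _ _ _ _ hy e.symm
    exact ⟨w, sup_comm x y ▸ h2, sup_comm x y ▸ h1⟩
  obtain ⟨y₁, a1, a2⟩ := exists_covBy_le_of_lt hy'
  obtain ⟨z₁, b1, b2⟩ := exists_covBy_le_of_lt hz'
  rw [← H.I_mul a1.le a2, H.I_cov a1, mul_assoc] at e hl
  rw [← H.I_mul b1.le b2, H.I_cov b1, mul_assoc] at e
  have l1 : H.len (I c y₁ y * a) + 1 ≤ m := by rw [len_mul, add_comm] at hl; exact hl
  have l2 : H.len (I c z₁ z * b) = H.len (I c y₁ y * a) := by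
    have := congrArg H.len e
    rw [H.len_mul (W c _), H.len_mul (W c _)] at this
    exact (Nat.add_left_cancel this).symm
  obtain ⟨w₃, c1, c2⟩ := g _ _ _ _ (by omega) e
  rw [H.I_tr a1 b1] at c1
  rw [sup_comm, H.I_tr b1 a1, sup_comm] at c2
  obtain ⟨w₄, d1, d2⟩ := ih _ (show m - 1 < m by omega) (by omega) _ _ _ _ _ a2 le_sup_left c1
    (by omega)
  rw [← sup_assoc, sup_of_le_left a2] at d1 d2
  rw [d2, ← mul_assoc, H.I_mul le_sup_right (sup_le_sup_right a2 _)] at c2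
  obtain ⟨w, f1, f2⟩ := ih _ (show m - 1 < m by omega) (by omega) _ _ _ _ _ b2 le_sup_right c2
    (by omega)
  rw [sup_comm z, sup_assoc, sup_of_le_right b2] at f1 f2
  exact ⟨w, by rw [d1, f2, ← mul_assoc, H.I_mul le_sup_left (sup_le_sup_left b2 _)], f1⟩

theorem succ {n : ℕ} (g : H.G n) : H.G (n + 1) := by
  have key : ∀ u v, ConGen.Rel (Rel c) u v → u.toList.length ≤ n + 1 → ∀ s t p q,
      u.toList = s :: p → v.toList = t :: q →
      ∃ w, W c p = I c s.1 (s.1 ⊔ t.1) * w ∧ W c q = I c t.1 (s.1 ⊔ t.1) * w := by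
    intro u v h
    induction h with
    | of u v h =>
      obtain ⟨s, t, p, q, hp, hq, rfl, rfl⟩ := h
      intro _ s' t' p' q' e1 e2
      rw [FreeMonoid.toList_ofList, H.bot, List.cons.injEq] at e1 e2
      obtain ⟨rfl, rfl⟩ := e1
      obtain ⟨rfl, rfl⟩ := e2
      exact ⟨1, by rw [H.I_eq hp, mul_one], by rw [H.I_eq hq, mul_one]⟩
    | refl u =>
      intro _ s t p q e1 e2
      obtain ⟨rfl, rfl⟩ := List.cons.inj (e1.symm.trans e2)
      exact ⟨W c p, by rw [sup_idem, H.I_self, one_mul], by rw [sup_idem, H.I_self, one_mul]⟩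
    | symm h ih =>
      intro hl s t p q e1 e2
      obtain ⟨w, h1, h2⟩ := ih (H.len_con h ▸ hl) t s q p e2 e1
      exact ⟨w, sup_comm t.1 s.1 ▸ h2, sup_comm t.1 s.1 ▸ h1⟩
    | @trans u x v h h' ih ih' =>
      intro hl s t p q e1 e2
      have l1 := H.len_con h
      obtain ⟨r, o, e3⟩ := List.exists_cons_of_length_pos
        (show 0 < x.toList.length by rw [← l1, e1]; simp)
      obtain ⟨w₁, a1, a2⟩ := ih hl s r p o e1 e3
      obtain ⟨w₂, b1, b2⟩ := ih' (l1 ▸ hl) r t o q e3 e2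
      obtain ⟨w, c1, c2⟩ := H.step g n le_rfl _ _ _ _ _ le_sup_right le_sup_left (a2.symm.trans b1)
        (by rw [← a2]; rw [l1, e3] at hl; exact Nat.le_of_succ_le_succ hl)
      have m : s.1 ⊔ t.1 ≤ s.1 ⊔ r.1 ⊔ (r.1 ⊔ t.1) := sup_le_sup le_sup_left le_sup_right
      exact ⟨I c (s.1 ⊔ t.1) (s.1 ⊔ r.1 ⊔ (r.1 ⊔ t.1)) * w,
        by rw [a1, c1, ← mul_assoc, ← mul_assoc, H.I_mul le_sup_left le_sup_left,
          H.I_mul le_sup_left m],
        by rw [b2, c2, ← mul_assoc, ← mul_assoc, H.I_mul le_sup_right le_sup_right,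
          H.I_mul le_sup_right m]⟩
    | @mul u₁ v₁ u₂ v₂ h h' ih ih' =>
      intro hl s t p q e1 e2
      rw [FreeMonoid.toList_mul] at hl e1 e2
      have l1 := H.len_con h
      rw [List.length_append] at hl
      rcases e3 : u₁.toList with _ | ⟨s', p'⟩
      · rw [List.length_eq_zero_iff.1 (show v₁.toList.length = 0 by rw [← l1, e3]; rfl)] at e2
        rw [e3] at e1
        exact ih' (by omega) s t p q e1 e2
      · obtain ⟨t', q', e4⟩ := List.exists_cons_of_length_pos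
          (show 0 < v₁.toList.length by rw [← l1, e3]; simp)
        obtain ⟨w, h1, h2⟩ := ih (by omega) s' t' p' q' e3 e4
        rw [e3, List.cons_append, List.cons.injEq] at e1
        rw [e4, List.cons_append, List.cons.injEq] at e2
        obtain ⟨rfl, rfl⟩ := e1
        obtain ⟨rfl, rfl⟩ := e2
        have e5 : W c u₂.toList = W c v₂.toList := PresentedMonoid.mk_eq_mk_iff.2 h'
        exact ⟨w * W c u₂.toList, by rw [W_append, h1, mul_assoc],
          by rw [W_append, h2, mul_assoc, e5]⟩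
  intro s t a b hl e
  obtain ⟨p, rfl⟩ := W_surj a
  obtain ⟨q, rfl⟩ := W_surj b
  exact key (FreeMonoid.ofList (s :: p)) (FreeMonoid.ofList (t :: q))
    (PresentedMonoid.mk_eq_mk_iff.1 e) hl s t p q rfl rfl

theorem all (n : ℕ) : H.G n := by
  induction n with
  | zero => exact fun _ _ _ _ h => absurd h (Nat.not_lt_zero _)
  | succ n ih => exact H.succ ih

theorem cancel (a u v : PresentedMonoid (Rel c)) (h : a * u = a * v) : u = v := by
  obtain ⟨p, rfl⟩ := W_surj a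
  induction p with
  | nil => simpa only [W_nil, one_mul] using h
  | cons s p ih =>
    rw [W_cons, mul_assoc, mul_assoc] at h
    obtain ⟨w, h1, h2⟩ := H.all _ _ _ _ _ (Nat.lt_succ_self _) h
    exact ih (h1.trans h2.symm)

theorem gcd (u v : PresentedMonoid (Rel c)) : ∃ d, d ∣ u ∧ d ∣ v ∧
    ∀ d', d' ∣ u → d' ∣ v → d' ∣ d := by
  induction hn : H.len u using Nat.strong_induction_on generalizing u v with | _ n ih
  have ih' : ∀ s u' v', u = W c [s] * u' → ∃ d, d ∣ u' ∧ d ∣ v' ∧ ∀ d', d' ∣ u' → d' ∣ v' → d' ∣ d :=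
    fun s u' v' e => ih _ (by rw [← hn, e, len_mul]; exact Nat.lt_add_of_pos_left Nat.one_pos) u' v' rfl
  by_cases h : ∃ s, W c [s] ∣ u ∧ W c [s] ∣ v
  swap
  · refine ⟨1, one_dvd _, one_dvd _, fun d' h1 h2 => ?_⟩
    obtain ⟨_ | ⟨s, p⟩, rfl⟩ := W_surj d'
    · rfl
    · exact (h ⟨s, (Dvd.intro _ (W_cons s).symm).trans h1, (Dvd.intro _ (W_cons s).symm).trans h2⟩).elim
  obtain ⟨s, ⟨u', hu⟩, v', hv⟩ := h
  obtain ⟨d, d1, d2, d3⟩ := ih' s u' v' hu
  refine ⟨W c [s] * d, hu ▸ mul_dvd_mul_left _ d1, hv ▸ mul_dvd_mul_left _ d2, fun e e1 e2 => ?_⟩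
  obtain ⟨_ | ⟨t, p⟩, rfl⟩ := W_surj e
  · exact one_dvd _
  obtain ⟨u'', hu'⟩ := e1
  obtain ⟨v'', hv'⟩ := e2
  rw [W_cons, mul_assoc] at hu' hv'
  obtain ⟨g, g1, g2, g3⟩ := ih' t _ (W c p * v'') hu'
  obtain ⟨w₁, a1, a2⟩ := H.all _ _ _ _ _ (Nat.lt_succ_self _) (hu.symm.trans hu')
  obtain ⟨w₂, b1, b2⟩ := H.all _ _ _ _ _ (Nat.lt_succ_self _) (hv.symm.trans hv')
  obtain ⟨k, hk⟩ := g3 _ ⟨_, a2⟩ ⟨_, b2⟩
  have j : W c [t] * I c t.1 (s.1 ⊔ t.1) = W c [s] * I c s.1 (s.1 ⊔ t.1) := by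
    rw [← H.bot t, ← H.bot s, ← H.I_cov t.2.bot_covBy, ← H.I_cov s.2.bot_covBy, H.bot, H.bot,
      H.I_mul bot_le le_sup_right, H.I_mul bot_le le_sup_left]
  have k1 : ∀ {a w a'}, g ∣ a → a = I c t.1 (s.1 ⊔ t.1) * w → a' = I c s.1 (s.1 ⊔ t.1) * w →
      I c s.1 (s.1 ⊔ t.1) * k ∣ a' := fun ⟨o, ho⟩ e e' => by
    rw [e', H.cancel _ _ _ (e.symm.trans (ho.trans (by rw [hk, mul_assoc])))]
    exact ⟨o, (mul_assoc _ _ _).symm⟩
  refine (mul_dvd_mul_left _ (g3 (W c p) ⟨_, rfl⟩ ⟨_, rfl⟩) : W c (t :: p) ∣ W c [t] * g).trans ?_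
  rw [hk, ← mul_assoc, j, mul_assoc]
  exact mul_dvd_mul_left _ (d3 _ (k1 g1 a2 a1) (k1 g2 b2 b1))

theorem le_iff (x y : L) : x ≤ y ↔ ∃ w, I c ⊥ y = I c ⊥ x * w := by
  refine ⟨fun h => ⟨_, (H.I_mul bot_le h).symm⟩, fun ⟨w, h⟩ => ?_⟩
  obtain ⟨w', -, e⟩ := H.step (H.all _) _ le_rfl ⊥ x y w 1 bot_le bot_le
    (h.symm.trans (mul_one _).symm) le_rfl
  have h1 := congrArg H.len e
  rw [len_mul] at h1
  obtain ⟨p, hp⟩ := exists_chain c (le_sup_right : y ≤ x ⊔ y)
  rw [H.I_eq hp] at h1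
  obtain rfl := List.length_eq_zero_iff.1 (show p.length = 0 from
    Nat.eq_zero_of_add_eq_zero_right h1.symm)
  generalize hz : x ⊔ y = z at hp
  cases hp
  exact sup_eq_right.1 hz

end Ok

theorem join_preserving {L : Type} [Fintype L] [Lattice L] [BoundedOrder L] (rk : L → ℕ)
    (c : L → L → {s : L // IsAtom s}) (h0 : rk ⊥ = 0) (h1 : ∀ x y : L, x ⋖ y → rk y = rk x + 1)
    (hc : ∀ s : {s : L // IsAtom s}, c ⊥ s.1 = s)
    (hφ : ∀ x : L, x ≠ ⊥ → x ≠ ⊤ → ∃ z : L, IsLUB {y : L | x ⋖ y} z ∧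
      ∃ φ : Set.Icc x z ↪o L, (∀ u : Set.Icc x z, rk (φ u) + rk x = rk u.1) ∧
        (∀ u v : Set.Icc x z, u.1 ⋖ v.1 → φ u ⋖ φ v ∧ c (φ u) (φ v) = c u.1 v.1) ∧
        ∀ u v w : Set.Icc x z, x ⋖ u.1 → x ⋖ v.1 → w.1 = u.1 ⊔ v.1 → φ w = φ u ⊔ φ v) :
    (∀ a u v : PresentedMonoid (Rel c), a * u = a * v → u = v) ∧
    (∀ u v : PresentedMonoid (Rel c), ∃ d : PresentedMonoid (Rel c),
      (∃ w, u = d * w) ∧ (∃ w, v = d * w) ∧ ∀ d' : PresentedMonoid (Rel c),
        (∃ w, u = d' * w) → (∃ w, v = d' * w) → ∃ w, d = d' * w) ∧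
    ∃ ι : L → PresentedMonoid (Rel c), (∀ x p, ChainWord c ⊥ x p →
      ι x = PresentedMonoid.mk (Rel c) (FreeMonoid.ofList p)) ∧
      ∀ x y, x ≤ y ↔ ∃ w, ι y = ι x * w := by
  have H : Ok c rk := ⟨h1, hc, fun {x y y' p} a a' hp => by
    rcases eq_or_ne x ⊥ with rfl | x0
    · rwa [hc ⟨y, bot_covBy_iff.1 a⟩, hc ⟨y', bot_covBy_iff.1 a'⟩]
    obtain ⟨z, hz, φ, f1, f2, f3⟩ := hφ x x0 a.lt.ne_top
    have mp : ∀ {u v p}, ChainWord c u v p → ∀ hu hv, ChainWord c (φ ⟨u, hu⟩) (φ ⟨v, hv⟩) p := by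
      intro u v p h
      induction h with
      | nil => exact fun _ _ => .nil _
      | @cons u o v p k h ih =>
        intro hu hv
        have ho : o ∈ Set.Icc x z := ⟨hu.1.trans k.le, h.le.trans hv.2⟩
        obtain ⟨g1, g2⟩ := f2 ⟨u, hu⟩ ⟨o, ho⟩ k
        exact g2 ▸ ChainWord.cons g1 (ih ho hv)
    have hx : x ∈ Set.Icc x z := ⟨le_rfl, a.le.trans (hz.1 a)⟩
    have b : φ ⟨x, hx⟩ = ⊥ := by
      obtain ⟨q, hq⟩ := exists_chain c (bot_le : ⊥ ≤ φ ⟨x, hx⟩)
      have k1 := len_chain h1 hq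
      have k2 := f1 ⟨x, hx⟩
      obtain rfl := List.length_eq_zero_iff.1 (show q.length = 0 by dsimp only at k2; omega)
      generalize φ ⟨x, hx⟩ = o at hq
      cases hq
      rfl
    have e : ∀ {y} (a : x ⋖ y), (c x y).1 = φ ⟨y, a.le, hz.1 a⟩ := fun {y} a => by
      obtain ⟨g1, g2⟩ := f2 ⟨x, hx⟩ ⟨y, a.le, hz.1 a⟩ a
      rw [b] at g1 g2
      rw [← g2, hc ⟨_, bot_covBy_iff.1 g1⟩]
    rw [e a, e a', ← f3 _ _ ⟨y ⊔ y', a.le.trans le_sup_left, sup_le (hz.1 a) (hz.1 a')⟩ a a' rfl]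
    exact mp hp _ _⟩
  exact ⟨H.cancel, H.gcd, I c ⊥, fun _ _ h => H.I_eq h, H.le_iff⟩

end Pool.Agent.Lib.MP_4cc90a_co.JoinPreserving
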