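import Mathlib

set_option autoImplicit false

namespace Pool.Agent.Lib.MP_4cc90a_co

/-- Two Boolean cubes glued along a square, with a top element added. -/
def Lt : Type := Fin 13

instance : DecidableEq Lt := inferInstanceAs (DecidableEq (Fin 13))
instance : Fintype Lt := inferInstanceAs (Fintype (Fin 13))

def el (i : Fin 13) : Lt := i

def supT : Fin 13 → Fin 13 → Fin 13 :=
  ![![0, 1, 2, 3, 4, 5, 6, 7, 8, 9, 10, 11, 12], ![1, 1, 5, 6, 8, 5, 6, 10, 8, 11, 10, 11, 12],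
    ![2, 5, 2, 7, 9, 5, 10, 7, 11, 9, 10, 11, 12], ![3, 6, 7, 3, 12, 10, 6, 7, 12, 12, 10, 12, 12],
    ![4, 8, 9, 12, 4, 11, 12, 12, 8, 9, 12, 11, 12],
    ![5, 5, 5, 10, 11, 5, 10, 10, 11, 11, 10, 11, 12],
    ![6, 6, 10, 6, 12, 10, 6, 10, 12, 12, 10, 12, 12],
    ![7, 10, 7, 7, 12, 10, 10, 7, 12, 12, 10, 12, 12],
    ![8, 8, 11, 12, 8, 11, 12, 12, 8, 11, 12, 11, 12],
    ![9, 11, 9, 12, 9, 11, 12, 12, 11, 9, 12, 11, 12],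
    ![10, 10, 10, 10, 12, 10, 10, 10, 12, 12, 10, 12, 12],
    ![11, 11, 11, 12, 11, 11, 12, 12, 11, 11, 12, 11, 12],
    ![12, 12, 12, 12, 12, 12, 12, 12, 12, 12, 12, 12, 12]]

def infT : Fin 13 → Fin 13 → Fin 13 :=
  ![![0, 0, 0, 0, 0, 0, 0, 0, 0, 0, 0, 0, 0], ![0, 1, 0, 0, 0, 1, 1, 0, 1, 0, 1, 1, 1],
    ![0, 0, 2, 0, 0, 2, 0, 2, 0, 2, 2, 2, 2], ![0, 0, 0, 3, 0, 0, 3, 3, 0, 0, 3, 0, 3],
    ![0, 0, 0, 0, 4, 0, 0, 0, 4, 4, 0, 4, 4], ![0, 1, 2, 0, 0, 5, 1, 2, 1, 2, 5, 5, 5],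
    ![0, 1, 0, 3, 0, 1, 6, 3, 1, 0, 6, 1, 6], ![0, 0, 2, 3, 0, 2, 3, 7, 0, 2, 7, 2, 7],
    ![0, 1, 0, 0, 4, 1, 1, 0, 8, 4, 1, 8, 8], ![0, 0, 2, 0, 4, 2, 0, 2, 4, 9, 2, 9, 9],
    ![0, 1, 2, 3, 0, 5, 6, 7, 1, 2, 10, 5, 10], ![0, 1, 2, 0, 4, 5, 1, 2, 8, 9, 5, 11, 11],
    ![0, 1, 2, 3, 4, 5, 6, 7, 8, 9, 10, 11, 12]]

instance : LE Lt := ⟨fun a b => supT a b = b⟩

instance : DecidableLE Lt := fun a b => inferInstanceAs (Decidable (supT a b = b))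

instance : PartialOrder Lt where
  le_refl := by decide +kernel
  le_trans := by decide +kernel
  le_antisymm := by decide +kernel

instance : DecidableLT Lt := fun a b => inferInstanceAs (Decidable (a ≤ b ∧ ¬ b ≤ a))

instance : Lattice Lt where
  sup := supT
  inf := infT
  le_sup_left := by decide +kernel
  le_sup_right := by decide +kernel
  sup_le := by decide +kernel
  inf_le_left := by decide +kernel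
  inf_le_right := by decide +kernel
  le_inf := by decide +kernel

instance : BoundedOrder Lt where
  top := el 12
  bot := el 0
  le_top := by decide +kernel
  bot_le := by decide +kernel

instance (a b : Lt) : Decidable (a ⋖ b) :=
  decidable_of_iff (a < b ∧ ∀ c, a < c → ¬ c < b) Iff.rfl

instance (a : Lt) : Decidable (IsAtom a) := decidable_of_iff (⊥ ⋖ a) bot_covBy_iff

def rkT : Lt → ℕ := ![0, 1, 1, 1, 1, 2, 2, 2, 2, 2, 3, 3, 4]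

def atomEl : Fin 4 → Lt := ![el 1, el 2, el 3, el 4]

theorem atomEl_atom : ∀ i, IsAtom (atomEl i) := by decide +kernel

def atm (i : Fin 4) : {s : Lt // IsAtom s} := ⟨atomEl i, atomEl_atom i⟩

def idx : Lt → Fin 4 := ![0, 0, 1, 2, 3, 0, 0, 0, 0, 0, 0, 0, 0]

def colT : Lt → Lt → Fin 4 :=
  ![![0, 0, 1, 2, 3, 0, 0, 0, 0, 0, 0, 0, 0], ![0, 0, 0, 0, 0, 0, 1, 0, 2, 0, 0, 0, 0],
    ![0, 0, 0, 0, 0, 0, 0, 1, 0, 2, 0, 0, 0], ![0, 0, 0, 0, 0, 0, 0, 1, 0, 0, 0, 0, 0],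
    ![0, 0, 0, 0, 0, 0, 0, 0, 0, 1, 0, 0, 0], ![0, 0, 0, 0, 0, 0, 0, 0, 0, 0, 0, 1, 0],
    ![0, 0, 0, 0, 0, 0, 0, 0, 0, 0, 0, 0, 0], ![0, 0, 0, 0, 0, 0, 0, 0, 0, 0, 0, 0, 0],
    ![0, 0, 0, 0, 0, 0, 0, 0, 0, 0, 0, 0, 0], ![0, 0, 0, 0, 0, 0, 0, 0, 0, 0, 0, 0, 0],
    ![0, 0, 0, 0, 0, 0, 0, 0, 0, 0, 0, 0, 0], ![0, 0, 0, 0, 0, 0, 0, 0, 0, 0, 0, 0, 0],
    ![0, 0, 0, 0, 0, 0, 0, 0, 0, 0, 0, 0, 0]]

/-- The coloring. -/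
def col (x y : Lt) : {s : Lt // IsAtom s} := atm (colT x y)

def topT : Lt → Lt := (![0, 12, 12, 10, 11, 12, 10, 10, 11, 11, 12, 12, 0] : Fin 13 → Fin 13)

def phiT : Lt → Lt → Lt :=
  (![![0, 0, 0, 0, 0, 0, 0, 0, 0, 0, 0, 0, 0], ![0, 0, 0, 0, 0, 1, 2, 0, 3, 0, 5, 6, 10],
    ![0, 0, 0, 0, 0, 1, 0, 2, 0, 3, 5, 6, 10], ![0, 0, 0, 0, 0, 0, 1, 2, 0, 0, 5, 0, 0],
    ![0, 0, 0, 0, 0, 0, 0, 0, 1, 2, 0, 5, 0], ![0, 0, 0, 0, 0, 0, 0, 0, 0, 0, 1, 2, 5],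
    ![0, 0, 0, 0, 0, 0, 0, 0, 0, 0, 1, 0, 0], ![0, 0, 0, 0, 0, 0, 0, 0, 0, 0, 1, 0, 0],
    ![0, 0, 0, 0, 0, 0, 0, 0, 0, 0, 0, 1, 0], ![0, 0, 0, 0, 0, 0, 0, 0, 0, 0, 0, 1, 0],
    ![0, 0, 0, 0, 0, 0, 0, 0, 0, 0, 0, 0, 1], ![0, 0, 0, 0, 0, 0, 0, 0, 0, 0, 0, 0, 1],
    ![0, 0, 0, 0, 0, 0, 0, 0, 0, 0, 0, 0, 0]] : Fin 13 → Fin 13 → Fin 13)

/-- Transition table of an automaton that follows the left divisors of two elements. -/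
def stepT : Fin 14 → Fin 4 → Fin 14 :=
  ![![1, 2, 3, 4], ![13, 5, 6, 13], ![13, 7, 8, 13], ![5, 7, 9, 13], ![6, 8, 10, 13],
    ![13, 11, 13, 13], ![13, 11, 13, 13], ![13, 12, 13, 13], ![13, 12, 13, 13],
    ![11, 12, 13, 13], ![11, 12, 13, 13], ![13, 13, 13, 13], ![13, 13, 13, 13],
    ![13, 13, 13, 13]]

def potT : Fin 14 → Lt → Fin 14 :=
  ![![0, 1, 2, 3, 4, 13, 5, 7, 6, 8, 13, 13, 13], ![1, 13, 5, 6, 13, 13, 13, 11, 13, 13, 13, 13, 13],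
    ![2, 13, 7, 8, 13, 13, 13, 12, 13, 13, 13, 13, 13],
    ![3, 5, 7, 9, 13, 13, 11, 12, 13, 13, 13, 13, 13],
    ![4, 6, 8, 10, 13, 13, 11, 12, 13, 13, 13, 13, 13],
    ![5, 13, 11, 13, 13, 13, 13, 13, 13, 13, 13, 13, 13],
    ![6, 13, 11, 13, 13, 13, 13, 13, 13, 13, 13, 13, 13],
    ![7, 13, 12, 13, 13, 13, 13, 13, 13, 13, 13, 13, 13],
    ![8, 13, 12, 13, 13, 13, 13, 13, 13, 13, 13, 13, 13],
    ![9, 11, 12, 13, 13, 13, 13, 13, 13, 13, 13, 13, 13],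
    ![10, 11, 12, 13, 13, 13, 13, 13, 13, 13, 13, 13, 13],
    ![11, 13, 13, 13, 13, 13, 13, 13, 13, 13, 13, 13, 13],
    ![12, 13, 13, 13, 13, 13, 13, 13, 13, 13, 13, 13, 13],
    ![13, 13, 13, 13, 13, 13, 13, 13, 13, 13, 13, 13, 13]]

def reachT : Fin 14 → Fin 14 → Fin 2 :=
  ![![1, 1, 1, 1, 1, 1, 1, 1, 1, 1, 1, 1, 1, 1], ![0, 1, 0, 0, 0, 1, 1, 0, 0, 0, 0, 1, 0, 1],
    ![0, 0, 1, 0, 0, 0, 0, 1, 1, 0, 0, 0, 1, 1], ![0, 0, 0, 1, 0, 1, 0, 1, 0, 1, 0, 1, 1, 1],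
    ![0, 0, 0, 0, 1, 0, 1, 0, 1, 0, 1, 1, 1, 1], ![0, 0, 0, 0, 0, 1, 0, 0, 0, 0, 0, 1, 0, 1],
    ![0, 0, 0, 0, 0, 0, 1, 0, 0, 0, 0, 1, 0, 1], ![0, 0, 0, 0, 0, 0, 0, 1, 0, 0, 0, 0, 1, 1],
    ![0, 0, 0, 0, 0, 0, 0, 0, 1, 0, 0, 0, 1, 1], ![0, 0, 0, 0, 0, 0, 0, 0, 0, 1, 0, 1, 1, 1],
    ![0, 0, 0, 0, 0, 0, 0, 0, 0, 0, 1, 1, 1, 1], ![0, 0, 0, 0, 0, 0, 0, 0, 0, 0, 0, 1, 0, 1],
    ![0, 0, 0, 0, 0, 0, 0, 0, 0, 0, 0, 0, 1, 1], ![0, 0, 0, 0, 0, 0, 0, 0, 0, 0, 0, 0, 0, 1]]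

theorem rk_cov : ∀ x y : Lt, x ⋖ y → rkT y = rkT x + 1 := by decide +kernel

theorem atoms_lub : ∀ u : Lt, (∀ s : Lt, IsAtom s → s ≤ u) → ⊤ ≤ u := by decide +kernel

theorem col_bot : ∀ s : Lt, IsAtom s → atomEl (colT ⊥ s) = s := by decide +kernel

theorem top_ub : ∀ x : Lt, x ≠ ⊥ → x ≠ ⊤ → ∀ y : Lt, x ⋖ y → y ≤ topT x := by decide +kernel

theorem top_least : ∀ x : Lt, x ≠ ⊥ → x ≠ ⊤ → ∀ u : Lt, (∀ y : Lt, x ⋖ y → y ≤ u) → topT x ≤ u := by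
  decide +kernel

theorem phi_le : ∀ x : Lt, x ≠ ⊥ → x ≠ ⊤ → ∀ u : Lt, x ≤ u → u ≤ topT x → ∀ v : Lt, x ≤ v →
    v ≤ topT x → (phiT x u ≤ phiT x v ↔ u ≤ v) := by decide +kernel

theorem phi_rk : ∀ x : Lt, x ≠ ⊥ → x ≠ ⊤ → ∀ u : Lt, x ≤ u → u ≤ topT x →
    rkT (phiT x u) + rkT x = rkT u := by decide +kernel

theorem phi_col : ∀ x : Lt, x ≠ ⊥ → x ≠ ⊤ → ∀ u : Lt, x ≤ u → u ≤ topT x → ∀ v : Lt, x ≤ v →
    v ≤ topT x → u ⋖ v → (phiT x u ⋖ phiT x v ∧ colT (phiT x u) (phiT x v) = colT u v) := by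
  decide +kernel

theorem idx_atm : ∀ i, idx (atomEl i) = i := by decide +kernel

theorem pot_step : ∀ σ, ∀ x y : Lt, x ⋖ y → stepT (potT σ x) (colT x y) = potT σ y := by
  decide +kernel

theorem pot_bot : ∀ σ, potT σ ⊥ = σ := by decide +kernel

theorem reach_refl : ∀ s, reachT s s = 1 := by decide +kernel

theorem reach_step : ∀ s t a, reachT s (stepT t a) = 1 ∨ reachT s t ≠ 1 := by decide +kernel

theorem reach_final : ∀ g, reachT 3 g = 1 → reachT 4 g = 1 → reachT g 11 = 1 → reachT g 12 = 1 →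
    False := by decide +kernel

/-- Action of a word on the automaton. -/
def run (σ : Fin 14) (w : List {s : Lt // IsAtom s}) : Fin 14 :=
  w.foldl (fun t a => stepT t (idx a.1)) σ

theorem run_append (σ : Fin 14) (w w' : List {s : Lt // IsAtom s}) :
    run σ (w ++ w') = run (run σ w) w' := List.foldl_append

theorem reach_run (s : Fin 14) (w : List {s : Lt // IsAtom s}) :
    ∀ t, reachT s t = 1 → reachT s (run t w) = 1 := by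
  induction w with
  | nil => exact fun t h => h
  | cons a w ih => exact fun t h => ih _ ((reach_step s t _).resolve_right (fun h' => h' h))

end Pool.Agent.Lib.MP_4cc90a_co
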